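import Pool.Agent.R719.LG.Ev

set_option autoImplicit false
set_option linter.unusedSectionVars false

/-! Matrices of Laurent polynomials with weighted dominance: doubling. -/

namespace Pool.Agent.R719.LG

open Matrix TH57.Thr TH6.LF TH6.CX Pool.Agent.Y75.Th Pool.Agent.Y35.KC.TTm Pool.Agent.R719.DD
  Pool.Agent.R719.WD

variable {κ : Type} [Fintype κ] [DecidableEq κ]

theorem detDbl {R : Type} [CommRing R] (u : R) (X Y : Matrix κ κ R) :
    (fromBlocks X (u ^ 2 • Y) Y X).det = (X + u • Y).det * (X - u • Y).det := by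
  have h1 : (fromBlocks 1 (u • 1) 0 1 : Matrix (κ ⊕ κ) (κ ⊕ κ) R)
      * fromBlocks X (u ^ 2 • Y) Y X * fromBlocks 1 (-(u • 1)) 0 1
      = fromBlocks (X + u • Y) 0 Y (X - u • Y) := by
    rw [fromBlocks_multiply, fromBlocks_multiply]
    simp only [Matrix.one_mul, Matrix.zero_mul, Matrix.mul_zero, add_zero, zero_add,
      Matrix.mul_one, Matrix.smul_mul, Matrix.mul_neg, Matrix.mul_smul, smul_zero]
    congr 1
    · rw [smul_add, smul_smul, ← sq]
      abel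
    · abel
  have h2 := congrArg Matrix.det h1
  rw [Matrix.det_mul, Matrix.det_mul, Matrix.det_fromBlocks_zero₂₁, Matrix.det_fromBlocks_zero₂₁,
    Matrix.det_fromBlocks_zero₁₂] at h2
  simpa using h2

/-- the doubled matrix -/
noncomputable def dbl (A : Matrix κ κ LP) : Matrix (κ ⊕ κ) (κ ⊕ κ) LP :=
  fromBlocks (A.map (HH2 0)) (A.map fun x => tt 1 * HH2 1 x) (A.map (HH2 1)) (A.map (HH2 0))

theorem coeff_HH2_one (x : LP) : (HH2 0 x).coeff 1 = x.coeff 1 := by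
  have h := coeff_HH2 0 x 0
  rw [mul_zero, add_zero, ofAdd_zero] at h
  exact h

theorem dbl_wdom {A : Matrix κ κ LP} {p : κ → ℝ} (h : WDom A p) :
    WDom (dbl A) (Sum.elim p p) := by
  have key : ∀ i, ∑ j, (l1 (A i j) : ℝ) * p j
      = ∑ j, (l1 (HH2 0 (A i j)) : ℝ) * p j + ∑ j, (l1 (HH2 1 (A i j)) : ℝ) * p j := by
    intro i
    rw [← Finset.sum_add_distrib]
    refine Finset.sum_congr rfl fun j _ => ?_
    rw [l1_split (A i j)]
    push_cast
    ring
  constructor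
  · rintro (i | i) <;> exact h.pos i
  · rintro (i | i)
    · rw [Fintype.sum_sum_type]
      change ∑ j, (l1 (HH2 0 (A i j)) : ℝ) * p j + ∑ j, (l1 (tt 1 * HH2 1 (A i j)) : ℝ) * p j
        ≤ 2 * ((HH2 0 (A i i)).coeff 1 : ℝ) * p i
      simp only [l1_tt_mul, coeff_HH2_one]
      rw [← key]
      exact h.row i
    · rw [Fintype.sum_sum_type]
      change ∑ j, (l1 (HH2 1 (A i j)) : ℝ) * p j + ∑ j, (l1 (HH2 0 (A i j)) : ℝ) * p j
        ≤ 2 * ((HH2 0 (A i i)).coeff 1 : ℝ) * p i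
      rw [coeff_HH2_one, add_comm, ← key]
      exact h.row i

/-- the comparison matrix at the character of order two -/
noncomputable def QQ (A : Matrix κ κ LP) : Matrix κ κ ℤ :=
  Matrix.of fun i j => (if i = j then 2 * (A i i).coeff 1 else 0) - (l1 (HH2 0 (A i j)) : ℤ)
    + (l1 (HH2 1 (A i j)) : ℤ)

theorem det_cm_dbl (A : Matrix κ κ LP) : (cm (dbl A)).det = (cm A).det * (QQ A).det := by
  let X : Matrix κ κ ℤ := Matrix.of fun i j =>
    (if i = j then 2 * (A i i).coeff 1 else 0) - (l1 (HH2 0 (A i j)) : ℤ)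
  let Y : Matrix κ κ ℤ := Matrix.of fun i j => - (l1 (HH2 1 (A i j)) : ℤ)
  have h1 : cm (dbl A) = fromBlocks X ((1 : ℤ) ^ 2 • Y) Y X := by
    rw [one_pow, one_smul]
    ext1 i j
    rcases i with i | i <;> rcases j with j | j
    · change (if Sum.inl i = Sum.inl j then 2 * (HH2 0 (A i i)).coeff 1 else 0)
        - (l1 (HH2 0 (A i j)) : ℤ) = (if i = j then 2 * (A i i).coeff 1 else 0)
        - (l1 (HH2 0 (A i j)) : ℤ)
      rw [coeff_HH2_one]
      simp only [Sum.inl.injEq]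
    · change (if (Sum.inl i : κ ⊕ κ) = Sum.inr j then 2 * (HH2 0 (A i i)).coeff 1 else 0)
        - (l1 (tt 1 * HH2 1 (A i j)) : ℤ) = - (l1 (HH2 1 (A i j)) : ℤ)
      rw [if_neg Sum.inl_ne_inr, l1_tt_mul, zero_sub]
    · change (if (Sum.inr i : κ ⊕ κ) = Sum.inl j then 2 * (HH2 0 (A i i)).coeff 1 else 0)
        - (l1 (HH2 1 (A i j)) : ℤ) = - (l1 (HH2 1 (A i j)) : ℤ)
      rw [if_neg Sum.inr_ne_inl, zero_sub]
    · change (if Sum.inr i = Sum.inr j then 2 * (HH2 0 (A i i)).coeff 1 else 0)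
        - (l1 (HH2 0 (A i j)) : ℤ) = (if i = j then 2 * (A i i).coeff 1 else 0)
        - (l1 (HH2 0 (A i j)) : ℤ)
      rw [coeff_HH2_one]
      simp only [Sum.inr.injEq]
  have h2 : X + (1 : ℤ) • Y = cm A := by
    ext1 i j
    rw [one_smul]
    change ((if i = j then 2 * (A i i).coeff 1 else 0) - (l1 (HH2 0 (A i j)) : ℤ))
      + - (l1 (HH2 1 (A i j)) : ℤ) = (if i = j then 2 * (A i i).coeff 1 else 0) - (l1 (A i j) : ℤ)
    rw [l1_split (A i j)]
    push_cast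
    ring
  have h3 : X - (1 : ℤ) • Y = QQ A := by
    ext1 i j
    rw [one_smul]
    change ((if i = j then 2 * (A i i).coeff 1 else 0) - (l1 (HH2 0 (A i j)) : ℤ))
      - - (l1 (HH2 1 (A i j)) : ℤ) = (if i = j then 2 * (A i i).coeff 1 else 0)
      - (l1 (HH2 0 (A i j)) : ℤ) + (l1 (HH2 1 (A i j)) : ℤ)
    ring
  rw [h1, detDbl, h2, h3]

theorem cm_le_QQ {A : Matrix κ κ LP} {p : κ → ℝ} (h : WDom A p) : (cm A).det ≤ (QQ A).det := by
  have h1 : Cmp (cmR A) ((QQ A).map (Int.castRingHom ℝ)) := by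
    constructor
    · intro i
      rw [cmR_apply, if_pos rfl]
      change _ ≤ (((if i = i then 2 * (A i i).coeff 1 else 0) - (l1 (HH2 0 (A i i)) : ℤ)
        + (l1 (HH2 1 (A i i)) : ℤ) : ℤ) : ℝ)
      rw [if_pos rfl, l1_split (A i i)]
      push_cast
      have : (0 : ℝ) ≤ (l1 (HH2 1 (A i i)) : ℝ) := Nat.cast_nonneg _
      linarith
    · intro i j hij
      rw [cmR_apply, if_neg hij]
      change |(((if i = j then 2 * (A i i).coeff 1 else 0) - (l1 (HH2 0 (A i j)) : ℤ)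
        + (l1 (HH2 1 (A i j)) : ℤ) : ℤ) : ℝ)| ≤ _
      rw [if_neg hij, l1_split (A i j), abs_le]
      push_cast
      have h2 : (0 : ℝ) ≤ (l1 (HH2 1 (A i j)) : ℝ) := Nat.cast_nonneg _
      have h3 : (0 : ℝ) ≤ (l1 (HH2 0 (A i j)) : ℝ) := Nat.cast_nonneg _
      constructor <;> linarith
  have h2 := (ost h.good h1).2
  unfold cmR at h2
  rw [← RingHom.mapMatrix_apply, ← RingHom.mapMatrix_apply, ← RingHom.map_det,
    ← RingHom.map_det] at h2
  exact Int.cast_le.1 h2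

theorem QQ_parity (A : Matrix κ κ LP) : (2 : ℤ) ∣ (QQ A).det - (cm A).det := by
  have h1 : (QQ A).map (Int.castRingHom (ZMod 2)) = (cm A).map (Int.castRingHom (ZMod 2)) := by
    ext1 i j
    change (((if i = j then 2 * (A i i).coeff 1 else 0) - (l1 (HH2 0 (A i j)) : ℤ)
        + (l1 (HH2 1 (A i j)) : ℤ) : ℤ) : ZMod 2)
      = (((if i = j then 2 * (A i i).coeff 1 else 0) - (l1 (A i j) : ℤ) : ℤ) : ZMod 2)
    rw [← sub_eq_zero, ← Int.cast_sub, l1_split (A i j),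
      ZMod.intCast_zmod_eq_zero_iff_dvd]
    exact ⟨(l1 (HH2 1 (A i j)) : ℤ), by push_cast; ring⟩
  have h2 := congrArg Matrix.det h1
  rw [← RingHom.mapMatrix_apply, ← RingHom.mapMatrix_apply, ← RingHom.map_det,
    ← RingHom.map_det] at h2
  have h3 : (((QQ A).det - (cm A).det : ℤ) : ZMod 2) = 0 := by
    rw [Int.cast_sub, sub_eq_zero]
    exact h2
  exact (ZMod.intCast_zmod_eq_zero_iff_dvd _ 2).1 h3

theorem HH2_zero_tt (x : LP) : HH2 0 (tt 1 * x) = tt 1 * HH2 1 x := by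
  apply ext_ofAdd
  intro m
  rw [coeff_HH2, coeff_tt_mul, coeff_tt_mul, coeff_HH2]
  congr 2
  ring

theorem HH2_one_tt (x : LP) : HH2 1 (tt 1 * x) = HH2 0 x := by
  apply ext_ofAdd
  intro m
  rw [coeff_HH2, coeff_tt_mul, coeff_HH2]
  congr 2
  ring

/-- the Gaussian integers -/
theorem det_gauss (X Y : Matrix κ κ ℤ) : ∃ u v : ℤ, (fromBlocks X Y (-Y) X).det = u ^ 2 + v ^ 2 := by
  let f : ℤ →+* GaussianInt := Int.castRingHom GaussianInt
  let I : GaussianInt := ⟨0, 1⟩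
  have hI : I ^ 2 = -1 := by decide
  let X' : Matrix κ κ GaussianInt := X.map f
  let Y' : Matrix κ κ GaussianInt := (-Y).map f
  have h1 : (fromBlocks X Y (-Y) X).map f = fromBlocks X' (I ^ 2 • Y') Y' X' := by
    rw [hI, fromBlocks_map]
    congr 1
    ext1 i j
    change f (Y i j) = (-1 : GaussianInt) • f (-(Y i j))
    rw [map_neg, smul_eq_mul]
    ring
  have h2 : f (fromBlocks X Y (-Y) X).det = (X' + I • Y').det * (X' - I • Y').det := by
    rw [RingHom.map_det, RingHom.mapMatrix_apply, h1, detDbl]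
  have h3 : (X' - I • Y').det = star (X' + I • Y').det := by
    have h4 : (starRingEnd GaussianInt) (X' + I • Y').det
        = ((X' + I • Y').map (starRingEnd GaussianInt)).det := by
      rw [RingHom.map_det, RingHom.mapMatrix_apply]
    change _ = (starRingEnd GaussianInt) (X' + I • Y').det
    rw [h4]
    congr 1
    ext1 i j
    change f (X i j) - I * f ((-Y) i j) = star (f (X i j) + I * f ((-Y) i j))
    have h5 : ∀ n : ℤ, star (f n) = f n := by
      intro n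
      change star ((n : GaussianInt)) = (n : GaussianInt)
      ext <;> simp
    have h6 : star I = -I := by decide
    rw [star_add, star_mul, h5, h5, h6]
    ring
  set ζ := (X' + I • Y').det with hζ
  rw [h3, ← Zsqrtd.norm_eq_mul_conj] at h2
  refine ⟨ζ.re, ζ.im, ?_⟩
  have h7 : ((fromBlocks X Y (-Y) X).det : GaussianInt) = ((Zsqrtd.norm ζ : ℤ) : GaussianInt) := h2
  have h8 := Int.cast_injective h7
  rw [h8, Zsqrtd.norm_def]
  ring

theorem QQ_dbl (A : Matrix κ κ LP) : ∃ u v : ℤ, (QQ (dbl A)).det = u ^ 2 + v ^ 2 := by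
  let X : Matrix κ κ ℤ := Matrix.of fun i j =>
    (if i = j then 2 * (A i i).coeff 1 else 0) - (l1 (HH2 0 (HH2 0 (A i j))) : ℤ)
      + (l1 (HH2 1 (HH2 0 (A i j))) : ℤ)
  let Y : Matrix κ κ ℤ := Matrix.of fun i j => (l1 (HH2 0 (HH2 1 (A i j))) : ℤ)
    - (l1 (HH2 1 (HH2 1 (A i j))) : ℤ)
  have h1 : QQ (dbl A) = fromBlocks X Y (-Y) X := by
    ext1 i j
    rcases i with i | i <;> rcases j with j | j
    · change (if Sum.inl i = Sum.inl j then 2 * (HH2 0 (A i i)).coeff 1 else 0)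
        - (l1 (HH2 0 (HH2 0 (A i j))) : ℤ) + (l1 (HH2 1 (HH2 0 (A i j))) : ℤ)
        = (if i = j then 2 * (A i i).coeff 1 else 0)
        - (l1 (HH2 0 (HH2 0 (A i j))) : ℤ) + (l1 (HH2 1 (HH2 0 (A i j))) : ℤ)
      rw [coeff_HH2_one]
      simp only [Sum.inl.injEq]
    · change (if (Sum.inl i : κ ⊕ κ) = Sum.inr j then 2 * (HH2 0 (A i i)).coeff 1 else 0)
        - (l1 (HH2 0 (tt 1 * HH2 1 (A i j))) : ℤ) + (l1 (HH2 1 (tt 1 * HH2 1 (A i j))) : ℤ)
        = (l1 (HH2 0 (HH2 1 (A i j))) : ℤ) - (l1 (HH2 1 (HH2 1 (A i j))) : ℤ)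
      rw [if_neg Sum.inl_ne_inr, HH2_zero_tt, HH2_one_tt, l1_tt_mul]
      ring
    · change (if (Sum.inr i : κ ⊕ κ) = Sum.inl j then 2 * (HH2 0 (A i i)).coeff 1 else 0)
        - (l1 (HH2 0 (HH2 1 (A i j))) : ℤ) + (l1 (HH2 1 (HH2 1 (A i j))) : ℤ)
        = -((l1 (HH2 0 (HH2 1 (A i j))) : ℤ) - (l1 (HH2 1 (HH2 1 (A i j))) : ℤ))
      rw [if_neg Sum.inr_ne_inl]
      ring
    · change (if Sum.inr i = Sum.inr j then 2 * (HH2 0 (A i i)).coeff 1 else 0)
        - (l1 (HH2 0 (HH2 0 (A i j))) : ℤ) + (l1 (HH2 1 (HH2 0 (A i j))) : ℤ)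
        = (if i = j then 2 * (A i i).coeff 1 else 0)
        - (l1 (HH2 0 (HH2 0 (A i j))) : ℤ) + (l1 (HH2 1 (HH2 0 (A i j))) : ℤ)
      rw [coeff_HH2_one]
      simp only [Sum.inr.injEq]
  rw [h1]
  exact det_gauss X Y

/-! ### evaluation -/

theorem ev_det (u : ℂˣ) (A : Matrix κ κ LP) : ev u A.det = (A.map (ev u)).det := by
  have h := RingHom.map_det (ev u).toRingHom A
  exact h

theorem norm_ev_det {A : Matrix κ κ LP} {p : κ → ℝ} (h : WDom A p) (u : ℂˣ)
    (hu : ‖(u : ℂ)‖ = 1) : ((cm A).det : ℝ) ≤ ‖ev u A.det‖ := by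
  have h1 : CmpC (cmR A) (A.map (ev u)) := by
    constructor
    · intro i
      rw [cmR_apply, if_pos rfl]
      exact norm_ev_ge u hu (A i i)
    · intro i j hij
      rw [cmR_apply, if_neg hij, zero_sub, neg_neg]
      exact norm_ev_le u hu (A i j)
  have h2 := ostC h.good h1
  rw [← ev_det] at h2
  unfold cmR at h2
  rw [← RingHom.mapMatrix_apply, ← RingHom.map_det] at h2
  exact h2

theorem ev_dbl (u : ℂˣ) (A : Matrix κ κ LP) :
    ev (u ^ 2) (dbl A).det = ev u A.det * ev (-u) A.det := by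
  rw [ev_det, ev_det, ev_det]
  let X : Matrix κ κ ℂ := A.map fun x => ev (u ^ 2) (HH2 0 x)
  let Y : Matrix κ κ ℂ := A.map fun x => ev (u ^ 2) (HH2 1 x)
  have h1 : (dbl A).map (ev (u ^ 2)) = fromBlocks X ((u : ℂ) ^ 2 • Y) Y X := by
    unfold dbl
    rw [fromBlocks_map]
    congr 1
    ext1 i j
    change ev (u ^ 2) (tt 1 * HH2 1 (A i j)) = (u : ℂ) ^ 2 * ev (u ^ 2) (HH2 1 (A i j))
    rw [map_mul, ev_tt, zpow_one]
    rfl
  have h2 : A.map (ev u) = X + (u : ℂ) • Y := by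
    ext1 i j
    exact ev_decomp u (A i j)
  have h3 : A.map (ev (-u)) = X - (u : ℂ) • Y := by
    ext1 i j
    change ev (-u) (A i j) = ev (u ^ 2) (HH2 0 (A i j)) - (u : ℂ) * ev (u ^ 2) (HH2 1 (A i j))
    rw [ev_decomp (-u), neg_sq]
    push_cast
    ring
  rw [h1, h2, h3, detDbl]

end Pool.Agent.R719.LG
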