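import Pool.Agent.R719.WD.Mat
import Pool.Agent.R719.LG.OstC

set_option autoImplicit false
set_option linter.unusedSectionVars false

/-! Laurent polynomials with integer coefficients: even and odd parts, evaluation, Mahler measure. -/

namespace Pool.Agent.R719.LG

open Matrix TH57.Thr TH6.LF TH6.CX Pool.Agent.Y75.Th Pool.Agent.Y35.KC.TTm Pool.Agent.R719.DD
  Pool.Agent.R719.WD

/-- the infinite cyclic group -/
abbrev Z1 : Type := Multiplicative ℤ

/-- Laurent polynomials -/
abbrev LP : Type := MonoidAlgebra ℤ Z1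

/-- the monomials -/
noncomputable def tt (m : ℤ) : LP := MonoidAlgebra.single (Multiplicative.ofAdd m) 1

theorem tt_mul (m n : ℤ) : tt m * tt n = tt (m + n) := by
  unfold tt
  rw [MonoidAlgebra.single_mul_single, one_mul, ← ofAdd_add]

theorem tt_zero : tt 0 = 1 := rfl

theorem coeff_tt_mul (m : ℤ) (x : LP) (g : ℤ) :
    (tt m * x).coeff (Multiplicative.ofAdd g) = x.coeff (Multiplicative.ofAdd (g - m)) := by
  unfold tt
  rw [MonoidAlgebra.coeff_single_mul_apply, one_mul]
  congr 1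
  rw [← ofAdd_neg, ← ofAdd_add]
  congr 1
  ring

/-- the coefficients at the places `2 m + d` -/
noncomputable def HH2 (d : ℤ) (x : LP) : LP :=
  MonoidAlgebra.ofCoeff (x.coeff.comapDomain
    (fun m : Z1 => Multiplicative.ofAdd (2 * Multiplicative.toAdd m + d))
    (fun a _ b _ h => by
      have h1 := Multiplicative.ofAdd.injective h
      have h2 : Multiplicative.toAdd a = Multiplicative.toAdd b := by omega
      exact Multiplicative.toAdd.injective h2))

theorem coeff_HH2 (d : ℤ) (x : LP) (m : ℤ) :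
    (HH2 d x).coeff (Multiplicative.ofAdd m) = x.coeff (Multiplicative.ofAdd (2 * m + d)) := rfl

theorem ext_ofAdd {x y : LP} (h : ∀ m : ℤ, x.coeff (Multiplicative.ofAdd m)
    = y.coeff (Multiplicative.ofAdd m)) : x = y := by
  ext g
  exact h (Multiplicative.toAdd g)

theorem HH2_add (d : ℤ) (x y : LP) : HH2 d (x + y) = HH2 d x + HH2 d y :=
  ext_ofAdd fun _ => rfl

theorem HH2_zero (d : ℤ) : HH2 d 0 = 0 := ext_ofAdd fun _ => rfl

/-- the ring endomorphism `z ↦ z ^ 2` -/
noncomputable def ph : LP →+* LP := MonoidAlgebra.mapDomainRingHom ℤ (powMonoidHom 2 : Z1 →* Z1)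

theorem ph_single (m : ℤ) (a : ℤ) : ph (MonoidAlgebra.single (Multiplicative.ofAdd m) a)
    = MonoidAlgebra.single (Multiplicative.ofAdd (2 * m)) a := by
  change MonoidAlgebra.mapDomain _ _ = _
  rw [MonoidAlgebra.mapDomain_single]
  congr 1

theorem ph_tt (m : ℤ) : ph (tt m) = tt (2 * m) := ph_single m 1

theorem single_coeff_ofAdd (m a g : ℤ) :
    (MonoidAlgebra.single (Multiplicative.ofAdd m) a : LP).coeff (Multiplicative.ofAdd g)
      = if m = g then a else 0 := by
  rw [MonoidAlgebra.coeff_single, Finsupp.single_apply]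
  simp only [EmbeddingLike.apply_eq_iff_eq]

/-- decomposition into even and odd parts -/
theorem decomp (x : LP) : x = ph (HH2 0 x) + tt 1 * ph (HH2 1 x) := by
  induction x using MonoidAlgebra.induction_linear with
  | zero => rw [HH2_zero, HH2_zero, map_zero, mul_zero, add_zero]
  | add x y hx hy =>
    rw [HH2_add, HH2_add, map_add, map_add, mul_add]
    nth_rewrite 1 [hx, hy]
    abel
  | single g a =>
    obtain ⟨m, rfl⟩ := Multiplicative.ofAdd.surjective g
    rcases Int.even_or_odd' m with ⟨k, rfl | rfl⟩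
    · have h1 : HH2 0 (MonoidAlgebra.single (Multiplicative.ofAdd (2 * k)) a)
          = MonoidAlgebra.single (Multiplicative.ofAdd k) a := by
        apply ext_ofAdd
        intro m
        rw [coeff_HH2, single_coeff_ofAdd, single_coeff_ofAdd]
        by_cases h : k = m
        · rw [if_pos h, if_pos (by omega)]
        · rw [if_neg h, if_neg (by omega)]
      have h2 : HH2 1 (MonoidAlgebra.single (Multiplicative.ofAdd (2 * k)) a) = 0 := by
        apply ext_ofAdd
        intro m
        rw [coeff_HH2, single_coeff_ofAdd, if_neg (by omega)]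
        rfl
      rw [h1, h2, map_zero, mul_zero, add_zero, ph_single]
    · have h1 : HH2 1 (MonoidAlgebra.single (Multiplicative.ofAdd (2 * k + 1)) a)
          = MonoidAlgebra.single (Multiplicative.ofAdd k) a := by
        apply ext_ofAdd
        intro m
        rw [coeff_HH2, single_coeff_ofAdd, single_coeff_ofAdd]
        by_cases h : k = m
        · rw [if_pos h, if_pos (by omega)]
        · rw [if_neg h, if_neg (by omega)]
      have h2 : HH2 0 (MonoidAlgebra.single (Multiplicative.ofAdd (2 * k + 1)) a) = 0 := by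
        apply ext_ofAdd
        intro m
        rw [coeff_HH2, single_coeff_ofAdd, if_neg (by omega)]
        rfl
      rw [h1, h2, map_zero, zero_add, ph_single, tt, MonoidAlgebra.single_mul_single, one_mul,
        ← ofAdd_add, add_comm]

theorem coeff_ph (x : LP) (m : ℤ) : (ph x).coeff (Multiplicative.ofAdd (2 * m))
    = x.coeff (Multiplicative.ofAdd m) := by
  induction x using MonoidAlgebra.induction_linear with
  | zero => rw [map_zero]; rfl
  | add x y hx hy =>
    rw [map_add]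
    change (ph x).coeff _ + (ph y).coeff _ = x.coeff _ + y.coeff _
    rw [hx, hy]
  | single g a =>
    obtain ⟨k, rfl⟩ := Multiplicative.ofAdd.surjective g
    rw [ph_single, single_coeff_ofAdd, single_coeff_ofAdd]
    by_cases h : k = m
    · rw [if_pos h, if_pos (by omega)]
    · rw [if_neg h, if_neg (by omega)]

/-! ### norms -/

theorem l1_eq_sum (x : LP) (S : Finset ℤ) (h : ∀ m : ℤ, x.coeff (Multiplicative.ofAdd m) ≠ 0 → m ∈ S) :
    l1 x = ∑ m ∈ S, (x.coeff (Multiplicative.ofAdd m)).natAbs := by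
  have h0 : l1 x = ∑ g ∈ x.coeff.support, (x.coeff g).natAbs := rfl
  rw [h0]
  have h1 : x.coeff.support ⊆ S.map Multiplicative.ofAdd.toEmbedding := by
    intro g hg
    rw [Finset.mem_map]
    refine ⟨Multiplicative.toAdd g, h _ ?_, rfl⟩
    exact Finsupp.mem_support_iff.1 hg
  rw [Finset.sum_subset h1 (fun g _ hg => by
    rw [Finsupp.notMem_support_iff.1 hg]; rfl), Finset.sum_map]
  rfl

theorem l1_split (x : LP) : l1 x = l1 (HH2 0 x) + l1 (HH2 1 x) := by
  classical
  -- a large symmetric interval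
  obtain ⟨N, hN⟩ : ∃ N : ℕ, ∀ m : ℤ, x.coeff (Multiplicative.ofAdd m) ≠ 0 → |m| ≤ N := by
    refine ⟨x.coeff.support.sup fun g => (Multiplicative.toAdd g).natAbs, fun m hm => ?_⟩
    have h1 := Finset.le_sup (f := fun g : Z1 => (Multiplicative.toAdd g).natAbs)
      (Finsupp.mem_support_iff.2 hm)
    have h2 : m.natAbs ≤ x.coeff.support.sup fun g => (Multiplicative.toAdd g).natAbs := h1
    rw [Int.abs_eq_natAbs]
    exact_mod_cast h2
  let S : Finset ℤ := Finset.Icc (-(N : ℤ) - 2) (N + 2)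
  let S0 : Finset ℤ := S.image fun m => 2 * m
  let S1 : Finset ℤ := S.image fun m => 2 * m + 1
  have hd : Disjoint S0 S1 := by
    rw [Finset.disjoint_left]
    intro a ha hb
    obtain ⟨m, -, h1⟩ := Finset.mem_image.1 ha
    obtain ⟨n, -, h2⟩ := Finset.mem_image.1 hb
    omega
  rw [l1_eq_sum x (S0 ∪ S1) (fun m hm => by
      have h1 := abs_le.1 (hN m hm)
      rcases Int.even_or_odd' m with ⟨k, rfl | rfl⟩
      · refine Finset.mem_union_left _ (Finset.mem_image.2 ⟨k, Finset.mem_Icc.2 ?_, rfl⟩)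
        constructor <;> omega
      · refine Finset.mem_union_right _ (Finset.mem_image.2 ⟨k, Finset.mem_Icc.2 ?_, rfl⟩)
        constructor <;> omega),
    Finset.sum_union hd, Finset.sum_image (fun a _ b _ h => by omega),
    Finset.sum_image (fun a _ b _ h => by omega)]
  rw [l1_eq_sum (HH2 0 x) S (fun m hm => by
      rw [coeff_HH2] at hm
      have h1 := abs_le.1 (hN _ hm)
      exact Finset.mem_Icc.2 ⟨by omega, by omega⟩),
    l1_eq_sum (HH2 1 x) S (fun m hm => by
      rw [coeff_HH2] at hm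
      have h1 := abs_le.1 (hN _ hm)
      exact Finset.mem_Icc.2 ⟨by omega, by omega⟩)]
  congr 1
  refine Finset.sum_congr rfl fun m _ => ?_
  rw [coeff_HH2, add_zero]

theorem l1_tt_mul_le (m : ℤ) (x : LP) : l1 (tt m * x) ≤ l1 x := by
  have h := l1_single_mul (Multiplicative.ofAdd m) 1 x
  unfold tt
  simpa using h

theorem l1_tt_mul (m : ℤ) (x : LP) : l1 (tt m * x) = l1 x := by
  refine le_antisymm (l1_tt_mul_le m x) ?_
  have h := l1_tt_mul_le (-m) (tt m * x)
  rwa [← mul_assoc, tt_mul, neg_add_cancel, tt_zero, one_mul] at h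

/-! ### evaluation -/

/-- evaluation at a nonzero complex number -/
noncomputable def ev (u : ℂˣ) : LP →ₐ[ℤ] ℂ :=
  MonoidAlgebra.lift ℤ ℂ Z1 ((Units.coeHom ℂ).comp (zpowersHom ℂˣ u))

theorem ev_single (u : ℂˣ) (m a : ℤ) :
    ev u (MonoidAlgebra.single (Multiplicative.ofAdd m) a) = (a : ℂ) * (u : ℂ) ^ m := by
  unfold ev
  rw [MonoidAlgebra.lift_single]
  change a • (((u ^ m : ℂˣ)) : ℂ) = _
  rw [zsmul_eq_mul, Units.val_zpow_eq_zpow_val]

theorem ev_tt (u : ℂˣ) (m : ℤ) : ev u (tt m) = (u : ℂ) ^ m := by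
  unfold tt; rw [ev_single]; simp

theorem ev_ph (u : ℂˣ) (x : LP) : ev u (ph x) = ev (u ^ 2) x := by
  induction x using MonoidAlgebra.induction_linear with
  | zero => simp
  | add x y hx hy => rw [map_add, map_add, map_add, hx, hy]
  | single g a =>
    obtain ⟨m, rfl⟩ := Multiplicative.ofAdd.surjective g
    rw [ph_single, ev_single, ev_single, Units.val_pow_eq_pow_val, _root_.zpow_mul]
    norm_cast

theorem ev_decomp (u : ℂˣ) (x : LP) :
    ev u x = ev (u ^ 2) (HH2 0 x) + (u : ℂ) * ev (u ^ 2) (HH2 1 x) := by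
  conv_lhs => rw [decomp x]
  rw [map_add, map_mul, ev_ph, ev_ph, ev_tt, zpow_one]

theorem norm_ev_le (u : ℂˣ) (hu : ‖(u : ℂ)‖ = 1) (x : LP) : ‖ev u x‖ ≤ (l1 x : ℝ) := by
  have h0 : ev u x = ∑ g ∈ x.coeff.support, ((x.coeff g : ℤ) : ℂ)
      * (u : ℂ) ^ (Multiplicative.toAdd g) := by
    have h1 : ev u x = x.coeff.sum fun g a => a • (((Units.coeHom ℂ).comp (zpowersHom ℂˣ u)) g) :=
      MonoidAlgebra.lift_apply _ _
    rw [h1, Finsupp.sum]
    refine Finset.sum_congr rfl fun g _ => ?_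
    change (x.coeff g) • (((u ^ (Multiplicative.toAdd g) : ℂˣ)) : ℂ) = _
    rw [zsmul_eq_mul, Units.val_zpow_eq_zpow_val]
  have h2 : (l1 x : ℝ) = ∑ g ∈ x.coeff.support, ((x.coeff g).natAbs : ℝ) := by
    have : l1 x = ∑ g ∈ x.coeff.support, (x.coeff g).natAbs := rfl
    rw [this]; push_cast; rfl
  rw [h0, h2]
  refine (norm_sum_le _ _).trans (Finset.sum_le_sum fun g _ => ?_)
  rw [norm_mul, norm_zpow, hu, _root_.one_zpow, mul_one, Complex.norm_intCast]
  rw [Nat.cast_natAbs]
  push_cast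
  rfl

theorem norm_ev_ge (u : ℂˣ) (hu : ‖(u : ℂ)‖ = 1) (x : LP) :
    2 * (x.coeff 1 : ℝ) - (l1 x : ℝ) ≤ ‖ev u x‖ := by
  have h1 := l1_sub_single x 1
  have h2 : ev u x = (x.coeff 1 : ℂ) + ev u (x - MonoidAlgebra.single 1 (x.coeff 1)) := by
    have h3 : ev u (MonoidAlgebra.single (1 : Z1) (x.coeff 1)) = (x.coeff 1 : ℂ) := by
      have := ev_single u 0 (x.coeff 1)
      rw [ofAdd_zero] at this
      rw [this, zpow_zero, mul_one]
    rw [map_sub, h3]; ring
  have h4 := norm_ev_le u hu (x - MonoidAlgebra.single 1 (x.coeff 1))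
  have h5 : ‖((x.coeff 1 : ℤ) : ℂ)‖ = |(x.coeff 1 : ℝ)| := by
    rw [Complex.norm_intCast]
  have h6 : ‖((x.coeff 1 : ℤ) : ℂ)‖ - ‖ev u (x - MonoidAlgebra.single 1 (x.coeff 1))‖ ≤ ‖ev u x‖ := by
    rw [h2]
    have := norm_sub_le_norm_add ((x.coeff 1 : ℤ) : ℂ) (ev u (x - MonoidAlgebra.single 1 (x.coeff 1)))
    exact this
  have h7 : ((l1 (x - MonoidAlgebra.single 1 (x.coeff 1)) : ℕ) : ℝ)
      = (l1 x : ℝ) - |(x.coeff 1 : ℝ)| := by
    exact_mod_cast h1
  have h8 := le_abs_self (x.coeff 1 : ℝ)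
  linarith

/-! ### the logarithmic Mahler measure -/

/-- the point of the unit circle with argument `θ` -/
noncomputable def uu (θ : ℝ) : ℂˣ := Units.mk0 (Complex.exp (θ * Complex.I)) (Complex.exp_ne_zero _)

theorem uu_norm (θ : ℝ) : ‖(uu θ : ℂ)‖ = 1 := Complex.norm_exp_ofReal_mul_I θ

theorem uu_sq (θ : ℝ) : uu θ ^ 2 = uu (2 * θ) := by
  apply Units.ext
  change Complex.exp (θ * Complex.I) ^ 2 = Complex.exp (((2 * θ : ℝ) : ℂ) * Complex.I)
  rw [← Complex.exp_nat_mul]
  congr 1
  push_cast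
  ring

theorem uu_pi (θ : ℝ) : uu (θ + Real.pi) = - uu θ := by
  apply Units.ext
  change Complex.exp (((θ + Real.pi : ℝ) : ℂ) * Complex.I) = - Complex.exp (θ * Complex.I)
  push_cast
  rw [_root_.add_mul, Complex.exp_add, Complex.exp_pi_mul_I]
  ring

theorem uu_period (θ : ℝ) : uu (θ + 2 * Real.pi) = uu θ := by
  have h : θ + 2 * Real.pi = (θ + Real.pi) + Real.pi := by ring
  rw [h, uu_pi, uu_pi, neg_neg]

/-- the function whose average is the logarithmic Mahler measure -/
noncomputable def lf (h : LP) (θ : ℝ) : ℝ := Real.log ‖ev (uu θ) h‖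

/-- the logarithmic Mahler measure -/
noncomputable def mm (h : LP) : ℝ := (2 * Real.pi)⁻¹ * ∫ θ in (0 : ℝ)..2 * Real.pi, lf h θ

/-- no zeros on the unit circle -/
def NZ (h : LP) : Prop := ∀ θ, ev (uu θ) h ≠ 0

theorem continuous_ev (h : LP) : Continuous fun θ : ℝ => ev (uu θ) h := by
  induction h using MonoidAlgebra.induction_linear with
  | zero => simp only [map_zero]; exact continuous_const
  | add x y hx hy => simp only [map_add]; exact hx.add hy
  | single g a =>
    obtain ⟨m, rfl⟩ := Multiplicative.ofAdd.surjective g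
    have h1 : (fun θ : ℝ => ev (uu θ) (MonoidAlgebra.single (Multiplicative.ofAdd m) a))
        = fun θ : ℝ => (a : ℂ) * (Complex.exp (θ * Complex.I)) ^ m := by
      funext θ
      exact ev_single _ _ _
    rw [h1]
    refine continuous_const.mul ?_
    refine Continuous.zpow₀ ?_ m fun θ => Or.inl (Complex.exp_ne_zero _)
    fun_prop

theorem continuous_lf {h : LP} (hz : NZ h) : Continuous (lf h) :=
  (continuous_ev h).norm.log fun θ => norm_ne_zero_iff.2 (hz θ)

theorem lf_periodic (h : LP) : Function.Periodic (lf h) (2 * Real.pi) := fun θ => by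
  unfold lf; rw [uu_period]

theorem mm_ge {h : LP} {c : ℝ} (hc : 0 < c) (h1 : ∀ θ, c ≤ ‖ev (uu θ) h‖) :
    Real.log c ≤ mm h := by
  have hz : NZ h := fun θ => norm_pos_iff.1 (lt_of_lt_of_le hc (h1 θ))
  have h2 : ∫ _ in (0 : ℝ)..2 * Real.pi, Real.log c ≤ ∫ θ in (0 : ℝ)..2 * Real.pi, lf h θ := by
    refine intervalIntegral.integral_mono_on (by positivity) (by simp)
      ((continuous_lf hz).intervalIntegrable _ _) fun θ _ => ?_
    exact Real.log_le_log hc (h1 θ)
  rw [intervalIntegral.integral_const, sub_zero, smul_eq_mul] at h2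
  unfold mm
  rw [inv_mul_eq_div, le_div_iff₀ (by positivity)]
  linarith

/-- substitution `θ ↦ 2 θ` -/
theorem int_double {G : ℝ → ℝ} (hp : Function.Periodic G (2 * Real.pi))
    (hc : Continuous G) :
    ∫ θ in (0 : ℝ)..2 * Real.pi, G (2 * θ) = ∫ θ in (0 : ℝ)..2 * Real.pi, G θ := by
  rw [intervalIntegral.integral_comp_mul_left G (two_ne_zero), mul_zero]
  have h1 : ∫ θ in (0 : ℝ)..2 * (2 * Real.pi), G θ
      = (∫ θ in (0 : ℝ)..2 * Real.pi, G θ) + ∫ θ in 2 * Real.pi..2 * (2 * Real.pi), G θ :=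
    (intervalIntegral.integral_add_adjacent_intervals (hc.intervalIntegrable _ _)
      (hc.intervalIntegrable _ _)).symm
  have h2 : ∫ θ in 2 * Real.pi..2 * (2 * Real.pi), G θ = ∫ θ in (0 : ℝ)..2 * Real.pi, G θ := by
    have h3 := hp.intervalIntegral_add_eq (2 * Real.pi) 0
    rw [zero_add] at h3
    rw [← h3]
    congr 1
    ring
  rw [h1, h2, smul_eq_mul]
  ring

theorem mm_ph {h h' : LP} (hz : NZ h') (he : h = ph h') : mm h = mm h' := by
  unfold mm
  congr 1
  rw [← int_double (lf_periodic h') (continuous_lf hz)]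
  refine intervalIntegral.integral_congr fun θ _ => ?_
  unfold lf
  rw [he, ev_ph, uu_sq]

theorem mm_double {h h' : LP} (hz : NZ h) (hz' : NZ h')
    (he : ∀ θ, ev (uu (2 * θ)) h' = ev (uu θ) h * ev (uu (θ + Real.pi)) h) :
    mm h' = 2 * mm h := by
  unfold mm
  rw [← int_double (lf_periodic h') (continuous_lf hz')]
  have h1 : ∫ θ in (0 : ℝ)..2 * Real.pi, lf h' (2 * θ)
      = ∫ θ in (0 : ℝ)..2 * Real.pi, (lf h θ + lf h (θ + Real.pi)) := by
    refine intervalIntegral.integral_congr fun θ _ => ?_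
    unfold lf
    rw [he, norm_mul, Real.log_mul (norm_ne_zero_iff.2 (hz _)) (norm_ne_zero_iff.2 (hz _))]
  have h2 : ∫ θ in (0 : ℝ)..2 * Real.pi, lf h (θ + Real.pi)
      = ∫ θ in (0 : ℝ)..2 * Real.pi, lf h θ := by
    rw [intervalIntegral.integral_comp_add_right]
    have h3 := (lf_periodic h).intervalIntegral_add_eq Real.pi 0
    rw [zero_add] at h3
    rw [← h3, zero_add, add_comm]
  have h4 : Continuous fun θ : ℝ => lf h (θ + Real.pi) :=
    (continuous_lf hz).comp (by fun_prop : Continuous fun θ : ℝ => θ + Real.pi)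
  have h5 : ∫ θ in (0 : ℝ)..2 * Real.pi, (lf h θ + lf h (θ + Real.pi))
      = (∫ θ in (0 : ℝ)..2 * Real.pi, lf h θ) + ∫ θ in (0 : ℝ)..2 * Real.pi, lf h (θ + Real.pi) :=
    intervalIntegral.integral_add ((continuous_lf hz).intervalIntegrable _ _)
      (h4.intervalIntegrable _ _)
  rw [h1, h5, h2]
  ring

end Pool.Agent.R719.LG
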