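import Pool.Agent.R719.LG.Low
import Pool.Agent.R719.WD.Hol

set_option autoImplicit false
set_option linter.unusedSectionVars false

/-! Halving, and the gap theorem. -/

namespace Pool.Agent.R719.LG

open Matrix TH57.Thr TH6.LF TH6.CX Pool.Agent.Y75.Th Pool.Agent.Y35.KC.TTm Pool.Agent.R719.DD
  Pool.Agent.R719.WD

variable {κ : Type} [Fintype κ] [DecidableEq κ]

/-- the determinant of a block triangular matrix only depends on the diagonal blocks -/
theorem det_bd {R : Type} [CommRing R] (r : κ → ℕ) (M : Matrix κ κ R)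
    (h : ∀ i j, r i < r j → M i j = 0) :
    M.det = (Matrix.of fun i j => if r i = r j then M i j else 0).det := by
  classical
  set M' : Matrix κ κ R := Matrix.of fun i j => if r i = r j then M i j else 0 with hM'
  let b : κ → ℕᵒᵈ := fun i => OrderDual.toDual (r i)
  have h1 : BlockTriangular M b := by
    intro i j hij
    exact h i j hij
  have h2 : BlockTriangular M' b := by
    intro i j hij
    have h3 : r i < r j := hij
    change (if r i = r j then M i j else 0) = 0
    rw [if_neg h3.ne]
  rw [h1.det, h2.det]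
  refine Finset.prod_congr rfl fun a _ => ?_
  congr 1
  ext1 x y
  change M x y = if r x = r y then M x y else 0
  have h3 : b x = b y := x.2.trans y.2.symm
  have h4 : r x = r y := h3
  rw [if_pos h4]

/-- the group of order two -/
abbrev C2 : Type := Multiplicative (ZMod 2)

/-- the generator -/
def sg : C2 := Multiplicative.ofAdd 1

theorem c2_cases (x : C2) : x = 1 ∨ x = sg := by
  revert x; decide

/-- the sign character -/
def sgn2 : C2 →* ℤ where
  toFun x := if x = 1 then 1 else -1
  map_one' := by decide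
  map_mul' := by decide

noncomputable def chm : MonoidAlgebra ℤ C2 →+* ℤ :=
  (MonoidAlgebra.lift ℤ ℤ C2 sgn2).toRingHom

theorem chm_single (x : C2) (a : ℤ) : chm (MonoidAlgebra.single x a) = a * sgn2 x := by
  change MonoidAlgebra.lift ℤ ℤ C2 sgn2 _ = _
  rw [MonoidAlgebra.lift_single, smul_eq_mul]

theorem aug_single' (x : C2) (a : ℤ) : augZ (MonoidAlgebra.single x a) = a := by
  change MonoidAlgebra.lift ℤ ℤ C2 (1 : C2 →* ℤ) _ = _
  simp

theorem c2_decomp (x : MonoidAlgebra ℤ C2) :
    x = MonoidAlgebra.single 1 (x.coeff 1) + MonoidAlgebra.single sg (x.coeff sg) := by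
  ext g
  change x.coeff g = (MonoidAlgebra.single (1 : C2) (x.coeff 1)).coeff g
    + (MonoidAlgebra.single sg (x.coeff sg)).coeff g
  rw [MonoidAlgebra.coeff_single, MonoidAlgebra.coeff_single, Finsupp.single_apply,
    Finsupp.single_apply]
  rcases c2_cases g with rfl | rfl
  · rw [if_pos rfl, if_neg (by decide), add_zero]
  · rw [if_neg (by decide), if_pos rfl, zero_add]

theorem c2_eq_one (x : MonoidAlgebra ℤ C2) (h1 : augZ x = 1) (h2 : chm x = 1) : x = 1 := by
  rw [c2_decomp x] at h1 h2 ⊢
  rw [map_add, aug_single', aug_single'] at h1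
  rw [map_add, chm_single, chm_single] at h2
  have e1 : sgn2 1 = 1 := by decide
  have e2 : sgn2 sg = -1 := by decide
  rw [e1, e2] at h2
  have h3 : x.coeff sg = 0 := by omega
  have h4 : x.coeff 1 = 1 := by omega
  rw [h3, h4, MonoidAlgebra.single_zero, add_zero]
  rfl

/-- the image over the group of order two of the comparison matrix -/
noncomputable def br (A : Matrix κ κ LP) : Matrix κ κ (MonoidAlgebra ℤ C2) :=
  Matrix.of fun i j => MonoidAlgebra.single 1 ((if i = j then 2 * (A i i).coeff 1 else 0)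
    - (l1 (HH2 0 (A i j)) : ℤ)) + MonoidAlgebra.single sg (-(l1 (HH2 1 (A i j)) : ℤ))

theorem br_aug (A : Matrix κ κ LP) : (br A).map augZ = cm A := by
  ext1 i j
  change augZ (MonoidAlgebra.single 1 ((if i = j then 2 * (A i i).coeff 1 else 0)
    - (l1 (HH2 0 (A i j)) : ℤ)) + MonoidAlgebra.single sg (-(l1 (HH2 1 (A i j)) : ℤ)))
    = (if i = j then 2 * (A i i).coeff 1 else 0) - (l1 (A i j) : ℤ)
  rw [map_add, aug_single', aug_single', l1_split (A i j)]
  push_cast
  ring

theorem br_chm (A : Matrix κ κ LP) : (br A).map chm = QQ A := by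
  ext1 i j
  change chm (MonoidAlgebra.single 1 ((if i = j then 2 * (A i i).coeff 1 else 0)
    - (l1 (HH2 0 (A i j)) : ℤ)) + MonoidAlgebra.single sg (-(l1 (HH2 1 (A i j)) : ℤ)))
    = (if i = j then 2 * (A i i).coeff 1 else 0) - (l1 (HH2 0 (A i j)) : ℤ)
      + (l1 (HH2 1 (A i j)) : ℤ)
  rw [map_add, chm_single, chm_single]
  have e1 : sgn2 1 = 1 := by decide
  have e2 : sgn2 sg = -1 := by decide
  rw [e1, e2]
  ring

theorem c2_coeff_one (a b : ℤ) : (MonoidAlgebra.single (1 : C2) a
    + MonoidAlgebra.single sg b).coeff 1 = a := by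
  change (MonoidAlgebra.single (1 : C2) a).coeff 1 + (MonoidAlgebra.single sg b).coeff 1 = _
  rw [MonoidAlgebra.coeff_single, MonoidAlgebra.coeff_single, Finsupp.single_apply,
    Finsupp.single_apply, if_pos rfl, if_neg (by decide), add_zero]

theorem c2_coeff_sg (a b : ℤ) : (MonoidAlgebra.single (1 : C2) a
    + MonoidAlgebra.single sg b).coeff sg = b := by
  change (MonoidAlgebra.single (1 : C2) a).coeff sg + (MonoidAlgebra.single sg b).coeff sg = _
  rw [MonoidAlgebra.coeff_single, MonoidAlgebra.coeff_single, Finsupp.single_apply,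
    Finsupp.single_apply, if_pos rfl, if_neg (by decide), zero_add]

theorem br_coeff_one (A : Matrix κ κ LP) (i j : κ) : (br A i j).coeff 1
    = (if i = j then 2 * (A i i).coeff 1 else 0) - (l1 (HH2 0 (A i j)) : ℤ) :=
  c2_coeff_one _ _

theorem br_coeff_sg (A : Matrix κ κ LP) (i j : κ) : (br A i j).coeff sg
    = -(l1 (HH2 1 (A i j)) : ℤ) := c2_coeff_sg _ _

theorem br_wdom {A : Matrix κ κ LP} {p : κ → ℝ} (h : WDom A p) : WDom (br A) p := by
  refine ⟨h.pos, fun i => ?_⟩
  have h1 : ∀ j, (l1 (br A i j) : ℝ) ≤ (l1 (A i j) : ℝ)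
      + (if i = j then 2 * ((A i i).coeff 1 : ℝ) - 2 * (l1 (HH2 0 (A i i)) : ℝ) else 0) := by
    intro j
    have e1 : (l1 (br A i j) : ℤ) ≤ |(if i = j then 2 * (A i i).coeff 1 else 0)
        - (l1 (HH2 0 (A i j)) : ℤ)| + (l1 (HH2 1 (A i j)) : ℤ) := by
      have e2 := l1_add_le (MonoidAlgebra.single (1 : C2)
        ((if i = j then 2 * (A i i).coeff 1 else 0) - (l1 (HH2 0 (A i j)) : ℤ)))
        (MonoidAlgebra.single sg (-(l1 (HH2 1 (A i j)) : ℤ)))
      rw [l1_single, l1_single, Int.natAbs_neg, Int.natAbs_natCast] at e2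
      have e3 : (l1 (br A i j) : ℤ) ≤ (((if i = j then 2 * (A i i).coeff 1 else 0)
        - (l1 (HH2 0 (A i j)) : ℤ)).natAbs : ℤ) + (l1 (HH2 1 (A i j)) : ℤ) := by
        exact_mod_cast e2
      rwa [Int.natCast_natAbs] at e3
    by_cases hij : i = j
    · subst hij
      rw [if_pos rfl] at e1 ⊢
      have e4 : 0 ≤ 2 * (A i i).coeff 1 - (l1 (HH2 0 (A i i)) : ℤ) := by
        have e5 : (l1 (A i i) : ℝ) * p i ≤ 2 * ((A i i).coeff 1 : ℝ) * p i :=
          (Finset.single_le_sum (f := fun j => (l1 (A i j) : ℝ) * p j)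
            (fun j _ => mul_nonneg (Nat.cast_nonneg _) (h.pos j).le) (Finset.mem_univ i)).trans
            (h.row i)
        have e6 : (l1 (A i i) : ℝ) ≤ 2 * ((A i i).coeff 1 : ℝ) := le_of_mul_le_mul_right e5 (h.pos i)
        have e7 : (l1 (A i i) : ℤ) ≤ 2 * (A i i).coeff 1 := by exact_mod_cast e6
        rw [l1_split (A i i)] at e7
        push_cast at e7
        have : (0 : ℤ) ≤ (l1 (HH2 1 (A i i)) : ℤ) := Nat.cast_nonneg _
        linarith
      rw [abs_of_nonneg e4] at e1
      rw [l1_split (A i i)]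
      push_cast
      have e8 : (l1 (br A i i) : ℝ) ≤ 2 * ((A i i).coeff 1 : ℝ) - (l1 (HH2 0 (A i i)) : ℝ)
          + (l1 (HH2 1 (A i i)) : ℝ) := by exact_mod_cast e1
      linarith
    · rw [if_neg hij, zero_sub, abs_neg, Nat.abs_cast] at e1
      rw [if_neg hij, add_zero, l1_split (A i j)]
      exact_mod_cast e1
  calc ∑ j, (l1 (br A i j) : ℝ) * p j
      ≤ ∑ j, ((l1 (A i j) : ℝ)
      + (if i = j then 2 * ((A i i).coeff 1 : ℝ) - 2 * (l1 (HH2 0 (A i i)) : ℝ) else 0)) * p j :=
        Finset.sum_le_sum fun j _ => mul_le_mul_of_nonneg_right (h1 j) (h.pos j).le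
    _ = ∑ j, (l1 (A i j) : ℝ) * p j
        + (2 * ((A i i).coeff 1 : ℝ) - 2 * (l1 (HH2 0 (A i i)) : ℝ)) * p i := by
        simp only [_root_.add_mul, Finset.sum_add_distrib, ite_mul, zero_mul]
        rw [Finset.sum_ite_eq Finset.univ i, if_pos (Finset.mem_univ i)]
    _ ≤ 2 * ((br A i i).coeff 1 : ℝ) * p i := by
        rw [br_coeff_one, if_pos rfl]
        push_cast
        have := h.row i
        linarith

/-- **Halving**: if the comparison determinants at both characters of order at most two are `1`, the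
determinant is a Laurent polynomial in `z ^ 2`, again the determinant of a dominated matrix. -/
theorem halve {A : Matrix κ κ LP} {p : κ → ℝ} (h : WDom A p) (hc : (cm A).det = 1)
    (hq : (QQ A).det = 1) : ∃ A' : Matrix κ κ LP, WDom A' p ∧ (cm A').det = 1 ∧
      A.det = ph A'.det := by
  classical
  have hdet : (br A).det = 1 := by
    apply c2_eq_one
    · rw [RingHom.map_det, RingHom.mapMatrix_apply, br_aug, hc]
    · rw [RingHom.map_det, RingHom.mapMatrix_apply, br_chm, hq]
  have hunit : IsUnit (br A) := (Matrix.isUnit_iff_isUnit_det _).2 (by rw [hdet]; exact isUnit_one)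
  obtain ⟨U, hU⟩ := hunit
  obtain ⟨-, r, w, hr, hw⟩ := TT_wdom' _ κ rfl U p (by rw [hU]; exact br_wdom h)
  rw [hU] at hr hw
  -- positions
  have hz : ∀ i j, r i < r j → A i j = 0 := by
    intro i j hij
    have hne : i ≠ j := fun hh => by rw [hh] at hij; exact lt_irrefl _ hij
    have h1 := hr i j hij
    have h2 : (br A i j).coeff 1 = 0 := by rw [h1]; rfl
    have h3 : (br A i j).coeff sg = 0 := by rw [h1]; rfl
    rw [br_coeff_one, if_neg hne, zero_sub, neg_eq_zero] at h2
    rw [br_coeff_sg, neg_eq_zero] at h3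
    rw [← l1_zero_iff, l1_split]
    have h4 : l1 (HH2 0 (A i j)) = 0 := by exact_mod_cast h2
    have h5 : l1 (HH2 1 (A i j)) = 0 := by exact_mod_cast h3
    rw [h4, h5]
  -- parity
  let ε : κ → ℤ := fun i => if w i = 1 then 0 else 1
  have hpar : ∀ i j, r i = r j → HH2 1 (tt (ε j - ε i) * A i j) = 0 := by
    intro i j hij
    have hodd : w i = w j → HH2 1 (A i j) = 0 := by
      intro hwij
      by_contra h1
      have h2 : (br A i j).coeff sg ≠ 0 := by
        rw [br_coeff_sg, neg_ne_zero]
        intro h3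
        exact h1 ((l1_zero_iff _).1 (by exact_mod_cast h3))
      have h3 := hw i j hij sg h2
      rw [hwij, mul_inv_cancel] at h3
      exact absurd h3 (by decide)
    have heven : w i ≠ w j → HH2 0 (A i j) = 0 := by
      intro hwij
      have hne : i ≠ j := fun hh => hwij (by rw [hh])
      by_contra h1
      have h2 : (br A i j).coeff 1 ≠ 0 := by
        rw [br_coeff_one, if_neg hne, zero_sub, neg_ne_zero]
        intro h3
        exact h1 ((l1_zero_iff _).1 (by exact_mod_cast h3))
      have h3 := hw i j hij 1 h2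
      exact hwij (mul_inv_eq_one.1 h3.symm)
    have key : ∀ d : ℤ, HH2 0 (A i j) = 0 → HH2 1 (tt (2 * d + 1) * A i j) = 0 := by
      intro d h0
      apply ext_ofAdd
      intro m
      rw [coeff_HH2, coeff_tt_mul]
      have h1 := congrArg (fun x : LP => x.coeff (Multiplicative.ofAdd (m - d))) h0
      change (HH2 0 (A i j)).coeff (Multiplicative.ofAdd (m - d)) = 0 at h1
      rw [coeff_HH2] at h1
      have h2 : 2 * m + 1 - (2 * d + 1) = 2 * (m - d) + 0 := by ring
      rw [h2, h1]
      rfl
    by_cases hwij : w i = w j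
    · have h1 : ε j - ε i = 0 := by simp only [ε]; rw [hwij]; ring
      rw [h1, tt_zero, one_mul]
      exact hodd hwij
    · have h1 : ε j - ε i = 2 * 0 + 1 ∨ ε j - ε i = 2 * (-1) + 1 := by
        simp only [ε]
        rcases c2_cases (w i) with hi | hi <;> rcases c2_cases (w j) with hj | hj
        · exact absurd (hi.trans hj.symm) hwij
        · left
          rw [if_pos hi, if_neg (by rw [hj]; decide)]
          norm_num
        · right
          rw [if_pos hj, if_neg (by rw [hi]; decide)]
          norm_num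
        · exact absurd (hi.trans hj.symm) hwij
      rcases h1 with h1 | h1
      · rw [h1]; exact key 0 (heven hwij)
      · rw [h1]; exact key (-1) (heven hwij)
  -- the new matrix
  let A' : Matrix κ κ LP := Matrix.of fun i j =>
    if r i = r j then HH2 0 (tt (ε j - ε i) * A i j) else 0
  have hA' : ∀ i j, A' i j = if r i = r j then HH2 0 (tt (ε j - ε i) * A i j) else 0 :=
    fun _ _ => rfl
  have hl1 : ∀ i j, l1 (A' i j) = if r i = r j then l1 (A i j) else 0 := by
    intro i j
    rw [hA']
    by_cases hij : r i = r j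
    · rw [if_pos hij, if_pos hij]
      have h1 := l1_split (tt (ε j - ε i) * A i j)
      rw [hpar i j hij, l1_tt_mul, (l1_zero_iff (0 : LP)).2 rfl, add_zero] at h1
      exact h1.symm
    · rw [if_neg hij, if_neg hij]
      exact (l1_zero_iff _).2 rfl
  have hdiag : ∀ i, (A' i i).coeff 1 = (A i i).coeff 1 := by
    intro i
    rw [hA', if_pos rfl, sub_self, tt_zero, one_mul, coeff_HH2_one]
  refine ⟨A', ⟨h.pos, fun i => ?_⟩, ?_, ?_⟩
  · rw [hdiag]
    refine (Finset.sum_le_sum fun j _ => ?_).trans (h.row i)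
    refine mul_le_mul_of_nonneg_right ?_ (h.pos j).le
    rw [hl1]
    split_ifs
    · exact le_rfl
    · simp
  · rw [← hc, det_bd r (cm A) (fun i j hij => by
      have hne : i ≠ j := fun hh => by rw [hh] at hij; exact lt_irrefl _ hij
      change (if i = j then 2 * (A i i).coeff 1 else 0) - (l1 (A i j) : ℤ) = 0
      rw [if_neg hne, hz i j hij, (l1_zero_iff (0 : LP)).2 rfl]
      simp)]
    congr 1
    ext1 i j
    change (if i = j then 2 * (A' i i).coeff 1 else 0) - (l1 (A' i j) : ℤ)
      = if r i = r j then (if i = j then 2 * (A i i).coeff 1 else 0) - (l1 (A i j) : ℤ) else 0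
    rw [hdiag, hl1]
    by_cases hij : r i = r j
    · rw [if_pos hij, if_pos hij]
    · have hne : i ≠ j := fun hh => hij (by rw [hh])
      rw [if_neg hij, if_neg hij, if_neg hne]
      simp
  · rw [det_bd r A hz]
    have h1 : (Matrix.of fun i j => if r i = r j then A i j else 0)
        = Matrix.diagonal (fun i => tt (ε i)) * A'.map ph * Matrix.diagonal (fun i => tt (-ε i)) := by
      ext1 i j
      rw [Matrix.mul_diagonal, Matrix.diagonal_mul]
      change (if r i = r j then A i j else 0) = tt (ε i) * ph (A' i j) * tt (-ε j)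
      rw [hA']
      by_cases hij : r i = r j
      · rw [if_pos hij, if_pos hij]
        have h2 := decomp (tt (ε j - ε i) * A i j)
        rw [hpar i j hij, map_zero, mul_zero, add_zero] at h2
        have h3 : ε i + (ε j - ε i) + -ε j = 0 := by ring
        rw [← h2]
        calc A i j = tt (ε i + (ε j - ε i) + -ε j) * A i j := by rw [h3, tt_zero, one_mul]
          _ = tt (ε i) * (tt (ε j - ε i) * A i j) * tt (-ε j) := by
            rw [← tt_mul, ← tt_mul]; ring
      · rw [if_neg hij, if_neg hij, map_zero, mul_zero, zero_mul]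
    rw [h1, Matrix.det_mul, Matrix.det_mul, Matrix.det_diagonal, Matrix.det_diagonal,
      RingHom.map_det, RingHom.mapMatrix_apply, mul_right_comm, ← Finset.prod_mul_distrib]
    have h2 : ∏ i, tt (ε i) * tt (-ε i) = 1 := by
      refine Finset.prod_eq_one fun i _ => ?_
      rw [tt_mul, add_neg_cancel, tt_zero]
    rw [h2, one_mul]

/-- **The gap theorem.** -/
theorem gap : ∀ (n : ℕ) (κ : Type) [Fintype κ] [DecidableEq κ] (A : Matrix κ κ LP) (p : κ → ℝ),
    WDom A p → (cm A).det ≠ 0 →
    (∃ a : ℤ, ∀ m : ℤ, A.det.coeff (Multiplicative.ofAdd m) ≠ 0 → a ≤ m ∧ m ≤ a + n) →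
    (∃ m : ℤ, A.det = tt m ∨ A.det = - tt m) ∨ Real.log 2 ≤ mm A.det := by
  intro n
  induction n using Nat.strong_induction_on with
  | _ n ih =>
  intro κ _ _ A p h hc ⟨a, ha⟩
  have hc0 : 0 ≤ (cm A).det := by
    have h1 := h.good.det_nonneg
    unfold cmR at h1
    rw [← RingHom.mapMatrix_apply, ← RingHom.map_det] at h1
    have h2 : (0 : ℝ) ≤ (((cm A).det : ℤ) : ℝ) := h1
    exact_mod_cast h2
  have hc1 : 1 ≤ (cm A).det := by omega
  rcases lt_or_ge 1 (cm A).det with h2 | h2
  · -- the comparison determinant is at least two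
    right
    have h3 := log_cm_le h hc1
    have h4 : (2 : ℝ) ≤ ((cm A).det : ℝ) := by exact_mod_cast h2
    exact (Real.log_le_log (by norm_num) h4).trans h3
  have hc' : (cm A).det = 1 := by omega
  have hq1 := cm_le_QQ h
  have hq2 := QQ_parity A
  rw [hc'] at hq1 hq2
  by_cases hq : (QQ A).det = 1
  swap
  · right
    exact low h hc' (by omega)
  rcases Nat.eq_zero_or_pos n with hn | hn
  · -- a monomial
    subst hn
    have h3 : A.det = MonoidAlgebra.single (Multiplicative.ofAdd a)
        (A.det.coeff (Multiplicative.ofAdd a)) := by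
      apply ext_ofAdd
      intro m
      rw [single_coeff_ofAdd]
      by_cases hm : a = m
      · rw [if_pos hm, hm]
      · rw [if_neg hm]
        by_contra h4
        have := ha m h4
        push_cast at this
        omega
    set c := A.det.coeff (Multiplicative.ofAdd a) with hcdef
    have h4 : ∀ θ, ‖ev (uu θ) A.det‖ = |(c : ℝ)| := by
      intro θ
      rw [h3, ev_single, norm_mul, norm_zpow, uu_norm, _root_.one_zpow, mul_one,
        Complex.norm_intCast]
    have h5 : c ≠ 0 := by
      intro h6
      have h7 := norm_ev_det h (uu 0) (uu_norm 0)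
      rw [h4, h6, hc'] at h7
      simp at h7
      exact absurd h7 (by norm_num)
    rcases lt_or_ge |c| 2 with h6 | h6
    · left
      refine ⟨a, ?_⟩
      have h7 : c = 1 ∨ c = -1 := by
        rw [abs_lt] at h6
        omega
      rcases h7 with h7 | h7
      · left
        rw [h3, h7]
        rfl
      · right
        rw [h3, h7]
        apply ext_ofAdd
        intro m
        change _ = - (tt a).coeff _
        unfold tt
        rw [single_coeff_ofAdd, single_coeff_ofAdd]
        split_ifs <;> simp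
    · right
      have h7 : ∀ θ, (2 : ℝ) ≤ ‖ev (uu θ) A.det‖ := by
        intro θ
        rw [h4]
        exact_mod_cast h6
      exact mm_ge (by norm_num) h7
  · obtain ⟨A', hA1, hA2, hA3⟩ := halve h hc' hq
    have hmm : mm A.det = mm A'.det := mm_ph (nz_det hA1 hA2.ge) hA3
    have h3 := ih (n / 2) (by omega) κ A' p hA1 (by rw [hA2]; norm_num)
      ⟨(a + 1) / 2, fun m hm => by
        have h4 : A.det.coeff (Multiplicative.ofAdd (2 * m)) ≠ 0 := by
          rw [hA3, coeff_ph]; exact hm
        have h5 := ha _ h4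
        push_cast
        omega⟩
    rcases h3 with ⟨m, h3 | h3⟩ | h3
    · left
      exact ⟨2 * m, Or.inl (by rw [hA3, h3, ph_tt])⟩
    · left
      exact ⟨2 * m, Or.inr (by rw [hA3, h3, map_neg, ph_tt])⟩
    · right
      rw [hmm]; exact h3

end Pool.Agent.R719.LG
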