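import Pool.Agent.R719.LG.Half
import Pool.Agent.R719.DD.Sharp

set_option autoImplicit false
set_option linter.unusedSectionVars false

/-! Transfer to Mathlib's Laurent polynomials and Mahler measure. -/

namespace Pool.Agent.R719.LG

open Matrix TH57.Thr TH6.LF TH6.CX Pool.Agent.Y75.Th Pool.Agent.Y35.KC.TTm Pool.Agent.R719.DD
  Pool.Agent.R719.WD

/-- the two forms of the ring of Laurent polynomials -/
noncomputable def eL : LaurentPolynomial ℤ ≃+* LP := AddMonoidAlgebra.toMultiplicative ℤ ℤ

theorem coeff_eL (x : LaurentPolynomial ℤ) (m : ℤ) :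
    (eL x).coeff (Multiplicative.ofAdd m) = x.coeff m := by
  change (x.coeff.mapDomain Multiplicative.ofAdd) (Multiplicative.ofAdd m) = _
  exact Finsupp.mapDomain_apply Multiplicative.ofAdd.injective _ _

theorem eL_T (m : ℤ) : eL (LaurentPolynomial.T m) = tt m := by
  apply ext_ofAdd
  intro k
  rw [coeff_eL]
  unfold tt
  rw [single_coeff_ofAdd]
  change (Finsupp.single m (1 : ℤ)) k = _
  rw [Finsupp.single_apply]

/-- the sum of the absolute values of the coefficients -/
noncomputable def nL (x : LaurentPolynomial ℤ) : ℤ := ∑ m ∈ x.coeff.support, |x.coeff m|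

theorem l1_eL (x : LaurentPolynomial ℤ) : (l1 (eL x) : ℤ) = nL x := by
  rw [l1_eq_sum (eL x) x.coeff.support (fun m hm => by
    rw [coeff_eL] at hm
    exact Finsupp.mem_support_iff.2 hm)]
  push_cast
  unfold nL
  refine Finset.sum_congr rfl fun m _ => ?_
  rw [coeff_eL]

/-- evaluation of polynomials -/
theorem ev_poly (u : ℂˣ) (f : Polynomial ℤ) : ev u (eL (Polynomial.toLaurent f))
    = (f.map (Int.castRingHom ℂ)).eval (u : ℂ) := by
  have h : ((ev u).toRingHom.comp (eL : LaurentPolynomial ℤ →+* LP)).comp Polynomial.toLaurent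
      = (Polynomial.evalRingHom (u : ℂ)).comp (Polynomial.mapRingHom (Int.castRingHom ℂ)) := by
    apply Polynomial.ringHom_ext
    · intro a
      simp
    · change ev u (eL (Polynomial.toLaurent Polynomial.X)) = (Polynomial.evalRingHom (u : ℂ))
        (Polynomial.mapRingHom (Int.castRingHom ℂ) Polynomial.X)
      rw [Polynomial.toLaurent_X, eL_T, ev_tt]
      simp
  exact congrArg (fun φ : Polynomial ℤ →+* ℂ => φ f) h

theorem mm_eq_mahler (f : Polynomial ℤ) (k : ℤ) (h : LP)
    (hf : eL (Polynomial.toLaurent f) = tt k * h) :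
    mm h = (f.map (Int.castRingHom ℂ)).logMahlerMeasure := by
  rw [Polynomial.logMahlerMeasure_def, Real.circleAverage_def, smul_eq_mul]
  unfold mm
  congr 1
  refine intervalIntegral.integral_congr fun θ _ => ?_
  have h1 : circleMap 0 1 θ = (uu θ : ℂ) := by
    unfold circleMap
    change 0 + ((1 : ℝ) : ℂ) * Complex.exp (θ * Complex.I) = Complex.exp (θ * Complex.I)
    simp
  have h2 := ev_poly (uu θ) f
  rw [hf, map_mul, ev_tt] at h2
  unfold lf
  rw [h1, ← h2, norm_mul, norm_zpow, uu_norm, _root_.one_zpow, one_mul]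

theorem mm_tt (m : ℤ) : mm (tt m) = 0 := by
  unfold mm lf
  have : ∀ θ : ℝ, Real.log ‖ev (uu θ) (tt m)‖ = 0 := by
    intro θ
    rw [ev_tt, norm_zpow, uu_norm, _root_.one_zpow, Real.log_one]
  simp [this]

theorem mm_neg_tt (m : ℤ) : mm (-tt m) = 0 := by
  unfold mm lf
  have : ∀ θ : ℝ, Real.log ‖ev (uu θ) (-tt m)‖ = 0 := by
    intro θ
    rw [map_neg, norm_neg, ev_tt, norm_zpow, uu_norm, _root_.one_zpow, Real.log_one]
  simp only [this, intervalIntegral.integral_zero, mul_zero]

/-- strict dominance implies that the comparison matrix is nonsingular -/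
theorem det_ne_of_strict {κ : Type} [Fintype κ] [DecidableEq κ] {A : Matrix κ κ LP} {p : κ → ℝ}
    (hp : ∀ i, 0 < p i)
    (h : ∀ i, ∑ j, (l1 (A i j) : ℝ) * p j < 2 * ((A i i).coeff 1 : ℝ) * p i) :
    WDom A p ∧ (cm A).det ≠ 0 := by
  have hW : WDom A p := ⟨hp, fun i => (h i).le⟩
  refine ⟨hW, fun h0 => ?_⟩
  have h1 : (cmR A * Matrix.diagonal p).det ≠ 0 := by
    apply det_ne_zero_of_sum_row_lt_diag
    intro i
    simp only [Matrix.mul_diagonal]
    have h2 : ∀ j ∈ Finset.univ.erase i, ‖cmR A i j * p j‖ = (l1 (A i j) : ℝ) * p j := by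
      intro j hj
      have hij : i ≠ j := (Finset.ne_of_mem_erase hj).symm
      rw [cmR_apply, if_neg hij, zero_sub, norm_mul, norm_neg, Real.norm_eq_abs, Real.norm_eq_abs,
        abs_of_pos (hp j), Nat.abs_cast]
    rw [Finset.sum_congr rfl h2]
    have h3 := h i
    rw [← Finset.add_sum_erase _ _ (Finset.mem_univ i)] at h3
    rw [cmR_apply, if_pos rfl, norm_mul, Real.norm_eq_abs, Real.norm_eq_abs, abs_of_pos (hp i)]
    have h4 := mul_le_mul_of_nonneg_right
      (le_abs_self (2 * ((A i i).coeff 1 : ℝ) - (l1 (A i i) : ℝ))) (hp i).le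
    linarith
  apply h1
  rw [Matrix.det_mul]
  have h5 : (cmR A).det = 0 := by
    unfold cmR
    rw [← RingHom.mapMatrix_apply, ← RingHom.map_det, h0, map_zero]
  rw [h5, zero_mul]

/-- the gap theorem for dominating coefficients at arbitrary positions -/
theorem gap_pos {κ : Type} [Fintype κ] [DecidableEq κ] (A : Matrix κ κ LP) (σ : κ ≃ κ)
    (k : κ → ℤ) (p : κ → ℝ) (hp : ∀ i, 0 < p i)
    (h : ∀ i, ∑ j, (l1 (A i j) : ℝ) * p j
      < 2 * |((A i (σ i)).coeff (Multiplicative.ofAdd (k i)) : ℝ)| * p (σ i)) :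
    (∃ m : ℤ, A.det = tt m ∨ A.det = - tt m) ∨ Real.log 2 ≤ mm A.det := by
  classical
  have hs : ∀ i, ∃ s : ℤ, (s = 1 ∨ s = -1) ∧ s * (A i (σ i)).coeff (Multiplicative.ofAdd (k i))
      = |(A i (σ i)).coeff (Multiplicative.ofAdd (k i))| := by
    intro i
    rcases abs_choice ((A i (σ i)).coeff (Multiplicative.ofAdd (k i))) with h1 | h1
    · exact ⟨1, Or.inl rfl, by rw [h1, one_mul]⟩
    · exact ⟨-1, Or.inr rfl, by rw [h1]; ring⟩
  choose s hs1 hs2 using hs
  let B : Matrix κ κ LP := Matrix.of fun i j => MonoidAlgebra.single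
    (Multiplicative.ofAdd (-k i)) (s i) * A i (σ j)
  have hBl : ∀ i j, l1 (B i j) = l1 (A i (σ j)) := by
    intro i j
    have h1 : B i j = tt (-k i) * (A i (σ j)) ∨ B i j = tt (-k i) * (-(A i (σ j))) := by
      rcases hs1 i with h1 | h1
      · left
        change MonoidAlgebra.single (Multiplicative.ofAdd (-k i)) (s i) * A i (σ j) = _
        rw [h1]; rfl
      · right
        change MonoidAlgebra.single (Multiplicative.ofAdd (-k i)) (s i) * A i (σ j) = _
        rw [h1, mul_neg, ← neg_mul]
        congr 1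
        apply ext_ofAdd
        intro m
        change _ = - (tt (-k i)).coeff _
        unfold tt
        rw [single_coeff_ofAdd, single_coeff_ofAdd]
        split_ifs <;> simp
    rcases h1 with h1 | h1
    · rw [h1, l1_tt_mul]
    · rw [h1, l1_tt_mul, l1_neg]
  have hBd : ∀ i, (B i i).coeff 1 = |(A i (σ i)).coeff (Multiplicative.ofAdd (k i))| := by
    intro i
    change (MonoidAlgebra.single (Multiplicative.ofAdd (-k i)) (s i) * A i (σ i)).coeff 1 = _
    rw [MonoidAlgebra.coeff_single_mul_apply, ← hs2]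
    congr 2
    rw [mul_one, ← ofAdd_neg, neg_neg]
  have hB : ∀ i, ∑ j, (l1 (B i j) : ℝ) * p (σ j) < 2 * ((B i i).coeff 1 : ℝ) * p (σ i) := by
    intro i
    simp only [hBl]
    rw [hBd, σ.sum_comp (fun j => (l1 (A i j) : ℝ) * p j)]
    push_cast
    exact h i
  obtain ⟨hW, hc⟩ := det_ne_of_strict (fun j => hp (σ j)) hB
  -- the determinant
  obtain ⟨m, hm⟩ : ∃ m : ℤ, B.det = tt m * A.det ∨ B.det = - (tt m * A.det) := by
    have h1 : B = Matrix.diagonal (fun i => MonoidAlgebra.single
        (Multiplicative.ofAdd (-k i)) (s i)) * A.submatrix id σ := by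
      ext1 i j
      rw [Matrix.diagonal_mul]
      rfl
    have h2 : ∀ T : Finset κ, ∃ m : ℤ, (∏ i ∈ T, (MonoidAlgebra.single
        (Multiplicative.ofAdd (-k i)) (s i) : LP)) = tt m
        ∨ (∏ i ∈ T, (MonoidAlgebra.single (Multiplicative.ofAdd (-k i)) (s i) : LP)) = - tt m := by
      intro T
      induction T using Finset.induction_on with
      | empty => exact ⟨0, Or.inl (by rw [Finset.prod_empty, tt_zero])⟩
      | insert i T hi ih =>
        obtain ⟨m, ih⟩ := ih
        rw [Finset.prod_insert hi]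
        have h3 : (MonoidAlgebra.single (Multiplicative.ofAdd (-k i)) (s i) : LP) = tt (-k i)
            ∨ (MonoidAlgebra.single (Multiplicative.ofAdd (-k i)) (s i) : LP) = -tt (-k i) := by
          rcases hs1 i with h4 | h4
          · left; rw [h4]; rfl
          · right
            rw [h4]
            apply ext_ofAdd
            intro m
            change _ = - (tt (-k i)).coeff _
            unfold tt
            rw [single_coeff_ofAdd, single_coeff_ofAdd]
            split_ifs <;> simp
        refine ⟨-k i + m, ?_⟩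
        rcases h3 with h3 | h3 <;> rcases ih with ih | ih <;> rw [h3, ih]
        · left; rw [tt_mul]
        · right; rw [mul_neg, tt_mul]
        · right; rw [neg_mul, tt_mul]
        · left; rw [neg_mul_neg, tt_mul]
    obtain ⟨m, hm⟩ := h2 Finset.univ
    refine ⟨m, ?_⟩
    have h5 : (A.submatrix id σ).det = A.det ∨ (A.submatrix id σ).det = -A.det := by
      have h6 := Matrix.det_permute' σ A
      rw [h6]
      rcases Int.units_eq_one_or (Equiv.Perm.sign σ) with h7 | h7 <;> rw [h7]
      · left; simp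
      · right; simp
    rw [h1, Matrix.det_mul, Matrix.det_diagonal]
    rcases hm with hm | hm <;> rcases h5 with h5 | h5 <;> rw [hm, h5]
    · left; rfl
    · right; rw [mul_neg]
    · right; rw [neg_mul]
    · left; rw [neg_mul_neg]
  have hmm : mm B.det = mm A.det := by
    unfold mm lf
    congr 1
    refine intervalIntegral.integral_congr fun θ _ => ?_
    rcases hm with hm | hm
    · rw [hm, map_mul, ev_tt, norm_mul, norm_zpow, uu_norm, _root_.one_zpow, one_mul]
    · rw [hm, map_neg, norm_neg, map_mul, ev_tt, norm_mul, norm_zpow, uu_norm, _root_.one_zpow,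
        one_mul]
  obtain ⟨N, hN⟩ : ∃ N : ℕ, ∀ m : ℤ, B.det.coeff (Multiplicative.ofAdd m) ≠ 0 → |m| ≤ N := by
    refine ⟨B.det.coeff.support.sup fun g => (Multiplicative.toAdd g).natAbs, fun m hm => ?_⟩
    have h1 := Finset.le_sup (f := fun g : Z1 => (Multiplicative.toAdd g).natAbs)
      (Finsupp.mem_support_iff.2 hm)
    have h2 : m.natAbs ≤ B.det.coeff.support.sup fun g => (Multiplicative.toAdd g).natAbs := h1
    rw [Int.abs_eq_natAbs]
    exact_mod_cast h2
  rcases gap (2 * N) κ B _ hW hc ⟨-N, fun m hm => by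
    have := abs_le.1 (hN m hm)
    push_cast
    omega⟩ with ⟨n, hn⟩ | hn
  · left
    have h3 : ∀ x : LP, tt m * A.det = x → A.det = tt (-m) * x := by
      intro x hx
      rw [← hx, ← mul_assoc, tt_mul, neg_add_cancel, tt_zero, one_mul]
    refine ⟨-m + n, ?_⟩
    rcases hm with hm | hm <;> rcases hn with hn | hn <;> rw [hn] at hm
    · left; rw [h3 _ hm.symm, tt_mul]
    · right; rw [h3 _ hm.symm, mul_neg, tt_mul]
    · right
      have h4 : tt m * A.det = -tt n := by rw [hm, neg_neg]
      rw [h3 _ h4, mul_neg, tt_mul]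
    · left
      have h4 : tt m * A.det = tt n := by rw [← neg_neg (tt m * A.det), ← hm, neg_neg]
      rw [h3 _ h4, tt_mul]
  · right
    rw [← hmm]; exact hn

end Pool.Agent.R719.LG
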