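import Pool.Agent.R719.LG.Dbl

set_option autoImplicit false
set_option linter.unusedSectionVars false

/-! The lower bound obtained from repeated doubling. -/

namespace Pool.Agent.R719.LG

open Matrix TH57.Thr TH6.LF TH6.CX Pool.Agent.Y75.Th Pool.Agent.Y35.KC.TTm Pool.Agent.R719.DD
  Pool.Agent.R719.WD

/-- no zeros on the circle -/
theorem nz_det {κ : Type} [Fintype κ] [DecidableEq κ] {A : Matrix κ κ LP} {p : κ → ℝ}
    (h : WDom A p) (hc : 1 ≤ (cm A).det) : NZ A.det := by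
  intro θ
  have h1 := norm_ev_det h (uu θ) (uu_norm θ)
  have h2 : (1 : ℝ) ≤ ((cm A).det : ℝ) := by exact_mod_cast hc
  exact norm_pos_iff.1 (by linarith)

theorem log_cm_le {κ : Type} [Fintype κ] [DecidableEq κ] {A : Matrix κ κ LP} {p : κ → ℝ}
    (h : WDom A p) (hc : 1 ≤ (cm A).det) : Real.log ((cm A).det : ℝ) ≤ mm A.det := by
  have h2 : (1 : ℝ) ≤ ((cm A).det : ℝ) := by exact_mod_cast hc
  exact mm_ge (by linarith) fun θ => norm_ev_det h (uu θ) (uu_norm θ)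

theorem mm_dbl {κ : Type} [Fintype κ] [DecidableEq κ] {A : Matrix κ κ LP} {p : κ → ℝ}
    (h : WDom A p) (hc : 1 ≤ (cm A).det) : mm (dbl A).det = 2 * mm A.det := by
  have h1 : 1 ≤ (QQ A).det := hc.trans (cm_le_QQ h)
  have h2 : 1 ≤ (cm (dbl A)).det := by
    rw [det_cm_dbl]
    nlinarith
  refine mm_double (nz_det h hc) (nz_det (dbl_wdom h) h2) fun θ => ?_
  rw [← uu_sq, ev_dbl, uu_pi]

/-- the state after `k` doublings -/
def St (k : ℕ) (m0 : ℝ) : Prop :=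
  ∃ (κ : Type) (_ : Fintype κ) (_ : DecidableEq κ) (A : Matrix κ κ LP) (p : κ → ℝ),
    WDom A p ∧ Odd (cm A).det ∧ 2 ^ (2 ^ k) - 1 ≤ (cm A).det ∧
    (∃ u v : ℤ, (QQ A).det = u ^ 2 + v ^ 2) ∧ mm A.det = 2 ^ k * m0

theorem odd_sq_add (u v : ℤ) (h : Odd (u ^ 2 + v ^ 2)) : (u ^ 2 + v ^ 2) % 4 = 1 := by
  have h1 : (u ^ 2 + v ^ 2) % 2 = 1 := Int.odd_iff.1 h
  rcases Int.even_or_odd' u with ⟨a, rfl | rfl⟩ <;> rcases Int.even_or_odd' v with ⟨b, rfl | rfl⟩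
  · ring_nf at h1 ⊢; omega
  · ring_nf at h1 ⊢; omega
  · ring_nf at h1 ⊢; omega
  · ring_nf at h1 ⊢; omega

theorem St.step {k : ℕ} {m0 : ℝ} (hk : 1 ≤ k) (h : St k m0) : St (k + 1) m0 := by
  obtain ⟨κ, i1, i2, A, p, hA, hodd, hc, ⟨u, v, huv⟩, hm⟩ := h
  set c := (cm A).det with hcdef
  set q := (QQ A).det with hq
  have hcq : c ≤ q := cm_le_QQ hA
  have hN : (4 : ℤ) ∣ 2 ^ (2 ^ k) := by
    have h1 : 2 ≤ 2 ^ k := by
      calc 2 = 2 ^ 1 := rfl
        _ ≤ 2 ^ k := Nat.pow_le_pow_right (by norm_num) hk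
    have h2 : (4 : ℤ) = 2 ^ 2 := by norm_num
    rw [h2]
    exact pow_dvd_pow 2 h1
  have hNpos : (0 : ℤ) < 2 ^ (2 ^ k) := by positivity
  have hsq : ((2 : ℤ) ^ (2 ^ (k + 1))) = 2 ^ (2 ^ k) * 2 ^ (2 ^ k) := by
    rw [← pow_add, ← two_mul, pow_succ, mul_comm (2 ^ k) 2]
  have hpar := QQ_parity A
  rw [← hcdef, ← hq] at hpar
  have hqodd : Odd q := by
    rw [Int.odd_iff] at hodd ⊢
    omega
  have hq4 : q % 4 = 1 := by
    rw [huv] at hqodd ⊢
    exact odd_sq_add u v hqodd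
  set N : ℤ := 2 ^ (2 ^ k) with hNdef
  have hN4 : 4 ≤ N := Int.le_of_dvd hNpos hN
  have hc1 : 1 ≤ c := by omega
  refine ⟨κ ⊕ κ, inferInstance, inferInstance, dbl A, Sum.elim p p, dbl_wdom hA, ?_, ?_,
    QQ_dbl A, ?_⟩
  · rw [det_cm_dbl]
    exact hodd.mul hqodd
  · rw [det_cm_dbl, hsq, ← hcdef, ← hq]
    rcases lt_or_ge c N with h1 | h1
    · have h2 : c = N - 1 := by omega
      have h3 : N + 1 ≤ q := by
        rw [Int.odd_iff] at hqodd
        omega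
      rw [h2]
      nlinarith
    · nlinarith
  · rw [mm_dbl hA hc1, hm, pow_succ]
    ring

theorem low {κ : Type} [Fintype κ] [DecidableEq κ] {A : Matrix κ κ LP} {p : κ → ℝ}
    (h : WDom A p) (hc : (cm A).det = 1) (hq : 3 ≤ (QQ A).det) : Real.log 2 ≤ mm A.det := by
  have h1 : St 1 (mm A.det) := by
    refine ⟨κ ⊕ κ, inferInstance, inferInstance, dbl A, Sum.elim p p, dbl_wdom h, ?_, ?_,
      QQ_dbl A, ?_⟩
    · rw [det_cm_dbl, hc, one_mul]
      have := QQ_parity A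
      rw [hc] at this
      rw [Int.odd_iff]
      omega
    · rw [det_cm_dbl, hc, one_mul]
      norm_num
      exact hq
    · rw [mm_dbl h hc.ge, pow_one]
  have h2 : ∀ k : ℕ, St (k + 1) (mm A.det) := by
    intro k
    induction k with
    | zero => exact h1
    | succ k ih => exact ih.step (by omega)
  have h3 : ∀ k : ℕ, (2 ^ (k + 1) - 1) * Real.log 2 ≤ 2 ^ (k + 1) * mm A.det := by
    intro k
    obtain ⟨κ', i1, i2, B, q, hB, -, hc', -, hm⟩ := h2 k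
    have h4 : (2 : ℤ) ≤ 2 ^ (2 ^ (k + 1)) := by
      calc (2 : ℤ) = 2 ^ 1 := rfl
        _ ≤ 2 ^ (2 ^ (k + 1)) := pow_le_pow_right₀ (by norm_num) Nat.one_le_two_pow
    have h5 : 1 ≤ (cm B).det := by omega
    have h6 := log_cm_le hB h5
    rw [hm] at h6
    refine le_trans ?_ h6
    have h7 : (2 : ℝ) ^ (2 ^ (k + 1)) / 2 ≤ ((cm B).det : ℝ) := by
      have h8 : ((2 : ℝ) ^ (2 ^ (k + 1)) - 1) ≤ ((cm B).det : ℝ) := by exact_mod_cast hc'
      have h9 : (2 : ℝ) ≤ 2 ^ (2 ^ (k + 1)) := by exact_mod_cast h4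
      linarith
    have h8 : Real.log ((2 : ℝ) ^ (2 ^ (k + 1)) / 2) = (2 ^ (k + 1) - 1) * Real.log 2 := by
      rw [Real.log_div (by positivity) (by norm_num), Real.log_pow]
      push_cast
      ring
    rw [← h8]
    exact Real.log_le_log (by positivity) h7
  by_contra hlt
  push Not at hlt
  set δ := Real.log 2 - mm A.det with hδ
  have hδ0 : 0 < δ := by rw [hδ]; linarith
  obtain ⟨k, hk⟩ := pow_unbounded_of_one_lt (Real.log 2 / δ) (one_lt_two)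
  have h4 := h3 k
  have h5 : Real.log 2 < 2 ^ k * δ := by
    rw [div_lt_iff₀ hδ0] at hk
    exact hk
  have h6 : (2 : ℝ) ^ k ≤ 2 ^ (k + 1) := pow_le_pow_right₀ (by norm_num) (by omega)
  have h7 : mm A.det = Real.log 2 - δ := by rw [hδ]; ring
  rw [h7] at h4
  nlinarith

end Pool.Agent.R719.LG
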